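import Pool.Agent.helper133_ap.Main

set_option autoImplicit false

namespace Pool.Agent.Results.MP_6bff71_co.BeatRandom

/-- The finite set `P` is a `k`-term arithmetic progression of positive integers with
positive common difference. -/
def IsAP (k : ℕ) (P : Finset ℕ) : Prop :=
  ∃ a d : ℕ, 1 ≤ a ∧ 1 ≤ d ∧ P = (Finset.range k).image (fun j => a + j * d)

/-- The number of `k`-term arithmetic progressions contained in `{1, ..., n}` on which the
colouring `χ` (with `r` colours) is constant. -/
noncomputable def monoCount (k r n : ℕ) (χ : ℕ → Fin r) : ℕ :=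
  Set.ncard {P : Finset ℕ | P ⊆ Finset.Icc 1 n ∧ IsAP k P ∧ ∀ x ∈ P, ∀ y ∈ P, χ x = χ y}

open Pool.Agent.helper133_ap in
lemma monoCount_eq {k r n : ℕ} (hk : 2 ≤ k) (ψ : ℕ → Fin r) :
    monoCount k r n (fun x => ψ (x - 1)) = (mono k n ψ).card := by
  classical
  unfold monoCount
  have hset : {P : Finset ℕ | P ⊆ Finset.Icc 1 n ∧ IsAP k P ∧
      ∀ x ∈ P, ∀ y ∈ P, ψ (x - 1) = ψ (y - 1)}
      = (fun q : ℕ × ℕ => (Finset.range k).image (fun j => q.1 + 1 + j * q.2)) ''
        (mono k n ψ : Set (ℕ × ℕ)) := by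
    ext P
    simp only [Set.mem_setOf_eq, Set.mem_image, Finset.mem_coe]
    constructor
    · rintro ⟨hsub, ⟨a, d, ha, hd, rfl⟩, hmono⟩
      refine ⟨(a - 1, d), ?_, ?_⟩
      · unfold mono
        rw [Finset.mem_filter, mem_apPairs hk]
        simp only
        refine ⟨⟨hd, ?_⟩, ?_⟩
        · have hmem : a + (k - 1) * d ∈ (Finset.range k).image (fun j => a + j * d) :=
            Finset.mem_image_of_mem (fun j => a + j * d) (Finset.mem_range.mpr (by omega))
          have := hsub hmem
          rw [Finset.mem_Icc] at this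
          omega
        · intro j hj
          have h1 : a + j * d ∈ (Finset.range k).image (fun j => a + j * d) :=
            Finset.mem_image_of_mem (fun j => a + j * d) hj
          have h2 : a + 0 * d ∈ (Finset.range k).image (fun j => a + j * d) :=
            Finset.mem_image_of_mem (fun j => a + j * d) (Finset.mem_range.mpr (by omega))
          have h3 := hmono _ h1 _ h2
          have e1 : a + j * d - 1 = a - 1 + j * d := by omega
          have e2 : a + 0 * d - 1 = a - 1 := by omega
          rw [e1, e2] at h3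
          exact h3
      · apply Finset.image_congr
        intro j _
        simp only
        omega
    · rintro ⟨⟨a, d⟩, hq, rfl⟩
      unfold mono at hq
      rw [Finset.mem_filter, mem_apPairs hk] at hq
      simp only at hq ⊢
      obtain ⟨⟨hd, hn⟩, hm⟩ := hq
      refine ⟨?_, ⟨a + 1, d, by omega, hd, rfl⟩, ?_⟩
      · intro x hx
        rw [Finset.mem_image] at hx
        obtain ⟨j, hj, rfl⟩ := hx
        rw [Finset.mem_range] at hj
        rw [Finset.mem_Icc]
        have : j * d ≤ (k - 1) * d := Nat.mul_le_mul_right _ (by omega)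
        omega
      · intro x hx y hy
        rw [Finset.mem_image] at hx hy
        obtain ⟨i, hi, rfl⟩ := hx
        obtain ⟨j, hj, rfl⟩ := hy
        have e1 : a + 1 + i * d - 1 = a + i * d := by omega
        have e2 : a + 1 + j * d - 1 = a + j * d := by omega
        rw [e1, e2, hm i hi, hm j hj]
  rw [hset, Set.ncard_image_of_injOn, Set.ncard_coe_finset]
  rintro ⟨a, d⟩ hq ⟨a', d'⟩ hq' heq
  simp only [Finset.mem_coe] at hq hq'
  unfold mono at hq hq'
  rw [Finset.mem_filter, mem_apPairs hk] at hq hq'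
  simp only at hq hq' heq
  have key : ∀ a d a' d' : ℕ,
      (Finset.range k).image (fun j => a + 1 + j * d)
        = (Finset.range k).image (fun j => a' + 1 + j * d') →
      a' ≤ a ∧ a + (k - 1) * d ≤ a' + (k - 1) * d' := by
    intro a d a' d' h
    constructor
    · have h1 : a + 1 + 0 * d ∈ (Finset.range k).image (fun j => a + 1 + j * d) :=
        Finset.mem_image_of_mem (fun j => a + 1 + j * d) (Finset.mem_range.mpr (by omega))
      rw [h, Finset.mem_image] at h1
      obtain ⟨j, _, hj⟩ := h1
      omega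
    · have h1 : a + 1 + (k - 1) * d ∈ (Finset.range k).image (fun j => a + 1 + j * d) :=
        Finset.mem_image_of_mem (fun j => a + 1 + j * d) (Finset.mem_range.mpr (by omega))
      rw [h, Finset.mem_image] at h1
      obtain ⟨j, hj, hj2⟩ := h1
      rw [Finset.mem_range] at hj
      have : j * d' ≤ (k - 1) * d' := Nat.mul_le_mul_right _ (by omega)
      omega
  obtain ⟨h1, h2⟩ := key a d a' d' heq
  obtain ⟨h3, h4⟩ := key a' d' a d heq.symm
  have haa : a = a' := by omega
  subst haa
  have h5 : (k - 1) * d = (k - 1) * d' := by omega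
  have h6 : d = d' := Nat.eq_of_mul_eq_mul_left (by omega) h5
  rw [h6]

/-- For every `k ≥ 3` and every `r ≥ 2` there are a constant `δ` strictly below the random rate
`1 / (2 (k-1) r^(k-1))` and, for each `n`, an `r`-colouring of `{1, ..., n}` with
`δ n² + O(n)` monochromatic `k`-term arithmetic progressions. -/
theorem result (k r : ℕ) (hk : 3 ≤ k) (hr : 2 ≤ r) :
    ∃ δ : ℝ, δ < 1 / (2 * ((k : ℝ) - 1) * (r : ℝ) ^ (k - 1)) ∧
      ∃ K : ℝ, ∀ n : ℕ, ∃ χ : ℕ → Fin r,
        |(monoCount k r n χ : ℝ) - δ * (n : ℝ) ^ 2| ≤ K * n := by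
  obtain ⟨δ, hδ, K, h⟩ := Pool.Agent.helper133_ap.main_pairs hk hr
  refine ⟨δ, hδ, K, fun n => ?_⟩
  obtain ⟨ψ, hψ⟩ := h n
  refine ⟨fun x => ψ (x - 1), ?_⟩
  rw [monoCount_eq (by omega)]
  exact hψ

end Pool.Agent.Results.MP_6bff71_co.BeatRandom
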